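import Mathlib

/-!
# Differentiation under the integral on a compact space
-/

open MeasureTheory

namespace Pool.Agent.Helper19.LB

theorem int_deriv_zero {Om : Type} [TopologicalSpace Om] [CompactSpace Om] [MeasurableSpace Om]
    [BorelSpace Om] [SecondCountableTopology Om] (nu : MeasureTheory.Measure Om)
    [MeasureTheory.IsFiniteMeasure nu] (f f' : Om → ℝ → ℝ)
    (hf : Continuous fun p : Om × ℝ => f p.1 p.2) (hf' : Continuous fun p : Om × ℝ => f' p.1 p.2)
    (hd : ∀ g t, HasDerivAt (f g) (f' g t) t) (hc : ∀ t, ∫ g, f g t ∂nu = ∫ g, f g 0 ∂nu) :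
    ∫ g, f' g 0 ∂nu = 0 := by
  obtain ⟨C, hC⟩ := (isCompact_univ.prod (isCompact_closedBall (0 : ℝ) 1)).exists_bound_of_continuousOn
    (f := fun p : Om × ℝ => f' p.1 p.2) hf'.continuousOn
  have hcont : ∀ t, Continuous fun g => f g t := fun t =>
    hf.comp (continuous_id.prodMk continuous_const)
  have hcont' : ∀ t, Continuous fun g => f' g t := fun t =>
    hf'.comp (continuous_id.prodMk continuous_const)
  have hint : ∀ (h : Om → ℝ), Continuous h → Integrable h nu := by
    intro h hh
    obtain ⟨B, hB⟩ := isCompact_univ.exists_bound_of_continuousOn (f := h) hh.continuousOn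
    exact Integrable.of_bound hh.aestronglyMeasurable B
      (Filter.Eventually.of_forall fun g => hB g (Set.mem_univ g))
  have key := hasDerivAt_integral_of_dominated_loc_of_deriv_le (μ := nu) (F := fun t g => f g t)
    (F' := fun t g => f' g t) (x₀ := (0 : ℝ)) (s := Metric.ball (0 : ℝ) 1) (bound := fun _ => C)
    (Metric.ball_mem_nhds 0 one_pos)
    (Filter.Eventually.of_forall fun t => (hcont t).aestronglyMeasurable)
    (hint _ (hcont 0)) (hcont' 0).aestronglyMeasurable
    (Filter.Eventually.of_forall fun g t ht =>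
      hC (g, t) ⟨Set.mem_univ g, Metric.ball_subset_closedBall ht⟩)
    (integrable_const C)
    (Filter.Eventually.of_forall fun g t _ => hd g t)
  have h1 : HasDerivAt (fun t : ℝ => ∫ g, f g t ∂nu) 0 0 := by
    have h2 : (fun t : ℝ => ∫ g, f g t ∂nu) = fun _ => ∫ g, f g 0 ∂nu := funext hc
    rw [h2]
    exact hasDerivAt_const _ _
  exact key.2.unique h1

end Pool.Agent.Helper19.LB
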