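import Pool.Agent.Helper13.LB.TorusDef

set_option autoImplicit false

open MeasureTheory Set Real Module
open scoped ContDiff RealInnerProductSpace

namespace Pool.Agent.Helper19.LB

open FBM

section Torus

variable {n k : ℕ} (w : Fin k ⊕ Fin k ⊕ Unit → E n)

/-- the `i`-th coordinate line through `θ` -/
noncomputable def line (θ : Fin k → ℝ) (i : Fin k) (t : ℝ) : Fin k → ℝ := θ + t • Pi.single i 1

lemma line_same (θ : Fin k → ℝ) (i : Fin k) (t : ℝ) : line θ i t i = θ i + t := by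
  simp [line]

lemma line_ne (θ : Fin k → ℝ) {i j : Fin k} (h : j ≠ i) (t : ℝ) : line θ i t j = θ j := by
  simp [line, h]

lemma line_zero (θ : Fin k → ℝ) (i : Fin k) : line θ i 0 = θ := by
  simp [line]

lemma hasDerivAt_line (θ : Fin k → ℝ) (i : Fin k) : HasDerivAt (line θ i) (Pi.single i 1) 0 := by
  have h : HasDerivAt (fun t : ℝ => θ + t • (Pi.single i 1 : Fin k → ℝ)) ((1 : ℝ) • (Pi.single i 1 : Fin k → ℝ)) 0 :=
    ((hasDerivAt_id (0 : ℝ)).smul_const (Pi.single i 1 : Fin k → ℝ)).const_add θ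
  rw [one_smul] at h
  exact h

lemma hasDerivAt_rh_same (θ : Fin k → ℝ) (i : Fin k) :
    HasDerivAt (fun t => rh w (line θ i t) i) (th w θ i) 0 := by
  have h0 : HasDerivAt (fun t : ℝ => θ i + t) 1 0 := (hasDerivAt_id (0 : ℝ)).const_add (θ i)
  have h1 : HasDerivAt (fun t => cos (θ i + t) • w (.inl i) + sin (θ i + t) • w (.inr (.inl i)))
      ((-sin (θ i + 0) * 1) • w (.inl i) + (cos (θ i + 0) * 1) • w (.inr (.inl i))) 0 :=
    (h0.cos.smul_const (w (.inl i))).add (h0.sin.smul_const (w (.inr (.inl i))))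
  have h2 : (fun t => rh w (line θ i t) i) =
      fun t => cos (θ i + t) • w (.inl i) + sin (θ i + t) • w (.inr (.inl i)) := by
    funext t
    simp only [rh, line_same]
  rw [h2]
  refine h1.congr_deriv ?_
  simp only [th, add_zero, mul_one]

lemma hasDerivAt_rh_ne (θ : Fin k → ℝ) {i j : Fin k} (h : j ≠ i) :
    HasDerivAt (fun t => rh w (line θ i t) j) 0 0 := by
  simp only [rh, line_ne θ h]
  exact hasDerivAt_const _ _

lemma hasDerivAt_th (θ : Fin k → ℝ) (i : Fin k) :
    HasDerivAt (fun t => th w (line θ i t) i) (-rh w θ i) 0 := by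
  have h0 : HasDerivAt (fun t : ℝ => θ i + t) 1 0 := (hasDerivAt_id (0 : ℝ)).const_add (θ i)
  have h1 : HasDerivAt (fun t => (-sin (θ i + t)) • w (.inl i) + cos (θ i + t) • w (.inr (.inl i)))
      ((-(cos (θ i + 0) * 1)) • w (.inl i) + (-sin (θ i + 0) * 1) • w (.inr (.inl i))) 0 :=
    (h0.sin.neg.smul_const (w (.inl i))).add (h0.cos.smul_const (w (.inr (.inl i))))
  have h2 : (fun t => th w (line θ i t) i) =
      fun t => (-sin (θ i + t)) • w (.inl i) + cos (θ i + t) • w (.inr (.inl i)) := by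
    funext t
    simp only [th, line_same]
  rw [h2]
  refine h1.congr_deriv ?_
  simp only [rh, add_zero, mul_one, neg_smul]
  abel

lemma hasDerivAt_pos (x : Pt) (θ : Fin k → ℝ) (i : Fin k) :
    HasDerivAt (fun t => pos w x (line θ i t)) ((x.1 * (√(k : ℝ))⁻¹) • th w θ i) 0 := by
  have h1 : HasDerivAt (fun t => ∑ j, rh w (line θ i t) j) (th w θ i) 0 := by
    have h2 : HasDerivAt (fun t => ∑ j, rh w (line θ i t) j) (∑ j, if j = i then th w θ j else 0) 0 := by
      refine HasDerivAt.fun_sum fun j _ => ?_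
      by_cases hj : j = i
      · subst hj
        simpa using hasDerivAt_rh_same w θ j
      · simpa [hj] using hasDerivAt_rh_ne w θ hj
    simpa using h2
  have h3 := ((h1.const_smul ((√(k : ℝ))⁻¹)).const_smul x.1).add_const (x.2 • ax w)
  simp only [pos, Rh]
  rw [mul_smul]
  exact h3

lemma contDiff_rh (j : Fin k) : ContDiff ℝ ∞ (fun θ => rh w θ j) := by
  unfold rh
  exact ((Real.contDiff_cos.comp (contDiff_apply ℝ ℝ j)).smul contDiff_const).add
    ((Real.contDiff_sin.comp (contDiff_apply ℝ ℝ j)).smul contDiff_const)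

lemma contDiff_th (j : Fin k) : ContDiff ℝ ∞ (fun θ => th w θ j) := by
  unfold th
  exact (((Real.contDiff_sin.comp (contDiff_apply ℝ ℝ j)).neg).smul contDiff_const).add
    ((Real.contDiff_cos.comp (contDiff_apply ℝ ℝ j)).smul contDiff_const)

lemma contDiff_Rh : ContDiff ℝ ∞ (fun θ => Rh w θ) := by
  unfold Rh
  exact (ContDiff.sum fun j _ => contDiff_rh w j).const_smul _

lemma contDiff_pos (x : Pt) : ContDiff ℝ ∞ (fun θ => pos w x θ) := by
  unfold pos
  exact ((contDiff_Rh w).const_smul _).add contDiff_const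

/-- the function of which the derivative is taken -/
noncomputable def FF (X : E n → E n) (x : Pt) (i : Fin k) (θ : Fin k → ℝ) : ℝ := ⟪X (pos w x θ), th w θ i⟫

lemma contDiff_FF {X : E n → E n} (hX : ContDiff ℝ ∞ X) (x : Pt) (i : Fin k) :
    ContDiff ℝ ∞ (FF w X x i) :=
  (hX.comp (contDiff_pos w x)).inner ℝ (contDiff_th w i)

lemma fderiv_FF {X : E n → E n} (hX : ContDiff ℝ ∞ X) (x : Pt) (i : Fin k) (θ : Fin k → ℝ) :
    fderiv ℝ (FF w X x i) θ (Pi.single i 1) =
      x.1 * (√(k : ℝ))⁻¹ * ⟪th w θ i, fderiv ℝ X (pos w x θ) (th w θ i)⟫ - ⟪X (pos w x θ), rh w θ i⟫ := by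
  have h1 : HasDerivAt (fun t => FF w X x i (line θ i t)) (fderiv ℝ (FF w X x i) θ (Pi.single i 1)) 0 := by
    have h2 : HasFDerivAt (FF w X x i) (fderiv ℝ (FF w X x i) θ) (line θ i 0) := by
      rw [line_zero]
      exact ((contDiff_FF w hX x i).differentiable (by simp) θ).hasFDerivAt
    exact h2.comp_hasDerivAt 0 (hasDerivAt_line θ i)
  have h3 : HasFDerivAt X (fderiv ℝ X (pos w x θ)) (pos w x (line θ i 0)) := by
    rw [line_zero]
    exact (hX.differentiable (by simp) _).hasFDerivAt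
  have h4 : HasDerivAt (fun t => X (pos w x (line θ i t)))
      (fderiv ℝ X (pos w x θ) ((x.1 * (√(k : ℝ))⁻¹) • th w θ i)) 0 :=
    h3.comp_hasDerivAt 0 (hasDerivAt_pos w x θ i)
  have h5 := h4.inner ℝ (hasDerivAt_th w θ i)
  simp only [line_zero] at h5
  have h6 := h1.unique h5
  rw [h6, map_smul, inner_neg_right, inner_smul_left,
    real_inner_comm (th w θ i) (fderiv ℝ X (pos w x θ) (th w θ i))]
  simp only [conj_trivial]
  ring

lemma rh_congr {θ θ' : Fin k → ℝ} (hc : ∀ j, cos (θ j) = cos (θ' j)) (hs : ∀ j, sin (θ j) = sin (θ' j)) (j : Fin k) :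
    rh w θ j = rh w θ' j := by
  simp only [rh, hc, hs]

lemma th_congr {θ θ' : Fin k → ℝ} (hc : ∀ j, cos (θ j) = cos (θ' j)) (hs : ∀ j, sin (θ j) = sin (θ' j)) (j : Fin k) :
    th w θ j = th w θ' j := by
  simp only [th, hc, hs]

lemma FF_congr {θ θ' : Fin k → ℝ} (hc : ∀ j, cos (θ j) = cos (θ' j)) (hs : ∀ j, sin (θ j) = sin (θ' j))
    (X : E n → E n) (x : Pt) (i : Fin k) : FF w X x i θ = FF w X x i θ' := by
  have h1 : Rh w θ = Rh w θ' := by
    simp only [Rh]
    congr 1
    exact Finset.sum_congr rfl fun j _ => rh_congr w hc hs j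
  simp only [FF, pos, h1, th_congr w hc hs]

lemma integral_div_zero (hk : 0 < k) {X : E n → E n} (hX : ContDiff ℝ ∞ X) (x : Pt) :
    ∫ θ in box k, ∑ i, fderiv ℝ (FF w X x i) θ (Pi.single i 1) = 0 := by
  obtain ⟨l, rfl⟩ : ∃ l, k = l + 1 := ⟨k - 1, by omega⟩
  have h2pi : (0 : ℝ) ≤ 2 * π := by positivity
  have h := integral_divergence_of_hasFDerivAt_off_countable' (0 : Fin (l + 1) → ℝ) (fun _ => 2 * π)
    (fun _ => h2pi) (fun i => FF w X x i) (fun i θ => fderiv ℝ (FF w X x i) θ) ∅ countable_empty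
    (fun i => (contDiff_FF w hX x i).continuous.continuousOn)
    (fun θ _ i => ((contDiff_FF w hX x i).differentiable (by simp) θ).hasFDerivAt)
    (by
      apply Continuous.integrableOn_Icc
      refine continuous_finsetSum _ fun i _ => ?_
      exact ((contDiff_FF w hX x i).continuous_fderiv (by simp)).clm_apply continuous_const)
  rw [box, h]
  refine Finset.sum_eq_zero fun i _ => ?_
  rw [sub_eq_zero]
  refine setIntegral_congr_fun measurableSet_Icc fun θ _ => ?_
  apply FF_congr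
  · intro j
    refine Fin.succAboveCases i ?_ (fun j => ?_) j
    · simp
    · simp
  · intro j
    refine Fin.succAboveCases i ?_ (fun j => ?_) j
    · simp
    · simp

lemma continuous_inner_rh {X : E n → E n} (hX : ContDiff ℝ ∞ X) (x : Pt) (j : Fin k) :
    Continuous fun θ => ⟪X (pos w x θ), rh w θ j⟫ :=
  ((hX.continuous.comp (contDiff_pos w x).continuous).inner (contDiff_rh w j).continuous)

lemma continuous_inner_th {X : E n → E n} (hX : ContDiff ℝ ∞ X) (x : Pt) (j : Fin k) :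
    Continuous fun θ => ⟪th w θ j, fderiv ℝ X (pos w x θ) (th w θ j)⟫ :=
  (contDiff_th w j).continuous.inner
    (((hX.continuous_fderiv (by simp)).comp (contDiff_pos w x).continuous).clm_apply (contDiff_th w j).continuous)

theorem hoop (hk : 0 < k) {X : E n → E n} (hX : ContDiff ℝ ∞ X) {x : Pt} (hx : x.1 ≠ 0) :
    ∫ θ in box k, ∑ j, ⟪th w θ j, fderiv ℝ X (pos w x θ) (th w θ j)⟫ =
      k / x.1 * ∫ θ in box k, ⟪X (pos w x θ), Rh w θ⟫ := by
  have h0 := integral_div_zero w hk hX x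
  have hk' : (0 : ℝ) < √(k : ℝ) := Real.sqrt_pos.2 (by exact_mod_cast hk)
  have hsq : √(k : ℝ) * √(k : ℝ) = k := Real.mul_self_sqrt (by positivity)
  have h1 : ∀ θ, ∑ i, fderiv ℝ (FF w X x i) θ (Pi.single i 1) =
      x.1 * (√(k : ℝ))⁻¹ * ∑ i, ⟪th w θ i, fderiv ℝ X (pos w x θ) (th w θ i)⟫ -
        √(k : ℝ) * ⟪X (pos w x θ), Rh w θ⟫ := by
    intro θ
    rw [Finset.sum_congr rfl fun i _ => fderiv_FF w hX x i θ, Finset.sum_sub_distrib, ← Finset.mul_sum, ← inner_sum,
      Rh, inner_smul_right, ← mul_assoc, mul_inv_cancel₀ hk'.ne', one_mul]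
  simp only [h1] at h0
  rw [integral_sub, integral_const_mul, integral_const_mul] at h0
  · have h2 : ∫ θ in box k, ∑ j, ⟪th w θ j, fderiv ℝ X (pos w x θ) (th w θ j)⟫ =
        (√(k : ℝ) / x.1) * (√(k : ℝ) * ∫ θ in box k, ⟪X (pos w x θ), Rh w θ⟫) := by
      rw [← sub_eq_zero.1 h0]
      field_simp
    rw [h2, ← mul_assoc, div_mul_eq_mul_div, hsq]
  · apply Continuous.integrableOn_Icc
    exact continuous_const.mul (continuous_finsetSum _ fun j _ => continuous_inner_th w hX x j)
  · apply Continuous.integrableOn_Icc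
    exact continuous_const.mul
      ((hX.continuous.comp (contDiff_pos w x).continuous).inner (contDiff_Rh w).continuous)

end Torus

end Pool.Agent.Helper19.LB
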